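import Mathlib
import Pool.Agent.H16.Univ2
set_option autoImplicit false
namespace Pool.Agent.Results.MP_501377_al.Yes
open Pool.Agent.H16.Univ Topology Filter

/-- a separable group with left-invariant metric inducing a group topology -/
def IsSepLeft (G : Type) [Group G] [MetricSpace G] : Prop :=
  (∀ g x y : G, dist (g * x) (g * y) = dist x y) ∧ IsTopologicalGroup G ∧
    TopologicalSpace.SeparableSpace G

section
variable {H : Type} [Group H] [MetricSpace H] [IsIsometricSMul H H]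

noncomputable def S (L : ℝ) (f : H → ℝ) (y : H) : ℝ := ⨅ g : H, (f (g⁻¹ * y) + L * dist g 1)

def Bd (f : H → ℝ) : Prop := ∃ C, ∀ y, |f y - dist 1 y| ≤ C

theorem d1 (g y : H) : dist 1 (g⁻¹ * y) = dist g y := by
  rw [← dist_mul_left g, mul_one, mul_inv_cancel_left]

theorem low {f : H → ℝ} {C : ℝ} (hf : ∀ y, |f y - dist 1 y| ≤ C) (g y : H) :
    dist 1 y - C - dist g 1 ≤ f (g⁻¹ * y) := by
  have h1 := abs_le.1 (hf (g⁻¹ * y))
  have h2 := dist_triangle_left 1 y g
  rw [d1] at h1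
  linarith

theorem S_le {L : ℝ} (hL : 1 ≤ L) {f : H → ℝ} (hf : Bd f) (y g : H) :
    S L f y ≤ f (g⁻¹ * y) + L * dist g 1 := by
  obtain ⟨C, hf⟩ := hf
  refine ciInf_le ⟨dist 1 y - C, ?_⟩ g
  rintro _ ⟨g, rfl⟩
  have := low hf g y
  have : dist g 1 ≤ L * dist g 1 := le_mul_of_one_le_left dist_nonneg hL
  show _ ≤ _ + _
  linarith

theorem S_bd {L : ℝ} (hL : 1 ≤ L) {f : H → ℝ} (hf : Bd f) : Bd (S L f) := by
  have h0 := fun y => S_le hL hf y 1
  obtain ⟨C, hf⟩ := hf
  refine ⟨C, fun y => abs_le.2 ⟨?_, ?_⟩⟩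
  · rw [le_sub_iff_add_le]
    refine le_ciInf fun g => ?_
    have := low hf g y
    have : dist g 1 ≤ L * dist g 1 := le_mul_of_one_le_left dist_nonneg hL
    linarith
  · have := h0 y
    have := abs_le.1 (hf y)
    simp only [inv_one, one_mul, dist_self, mul_zero, add_zero] at *
    linarith

theorem tr_bd {f : H → ℝ} (hf : Bd f) (h : H) : Bd fun y => f (h⁻¹ * y) := by
  obtain ⟨C, hf⟩ := hf
  refine ⟨C + dist h 1, fun y => abs_le.2 ⟨?_, ?_⟩⟩
  · have := low hf h y; linarith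
  · have h1 := abs_le.1 (hf (h⁻¹ * y))
    have h2 := dist_triangle h 1 y
    rw [d1] at h1
    linarith

theorem S_lip0 {L : ℝ} (hL : 1 ≤ L) {f : H → ℝ} (hf : Bd f) (h y : H) :
    S L f (h⁻¹ * y) - L * dist h 1 ≤ S L f y := by
  refine le_ciInf fun g => ?_
  have h1 := S_le hL hf (h⁻¹ * y) (h⁻¹ * g)
  have h2 := mul_le_mul_of_nonneg_left (dist_triangle h 1 g) (by linarith : 0 ≤ L)
  rw [dist_comm (h⁻¹ * g), d1, mul_inv_rev, inv_inv, mul_assoc, mul_inv_cancel_left] at h1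
  rw [dist_comm 1 g] at h2
  linarith

theorem S_lip {L : ℝ} (hL : 1 ≤ L) {f : H → ℝ} (hf : Bd f) (h y : H) :
    |S L f (h⁻¹ * y) - S L f y| ≤ L * dist h 1 := by
  have h1 := S_lip0 hL hf h y
  have h2 := S_lip0 hL hf h⁻¹ (h⁻¹ * y)
  have h3 := d1 h 1
  rw [mul_one, dist_comm] at h3
  rw [inv_inv, mul_inv_cancel_left, h3] at h2
  exact abs_le.2 ⟨by linarith, by linarith⟩

theorem S_approx {f : H → ℝ} (hf : Bd f) {ε τ : ℝ} (hε : 0 ≤ ε) (hτ : 0 < τ)
    (h : ∀ g y, dist g 1 < τ → |f (g⁻¹ * y) - f y| ≤ ε) :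
    ∃ n : ℕ, ∀ y, |f y - S (n + 1) f y| ≤ ε := by
  obtain ⟨C, hC⟩ := id hf
  obtain ⟨n, hn⟩ := exists_nat_ge (2 * C / τ)
  rw [div_le_iff₀ hτ] at hn
  have n0 : (0 : ℝ) ≤ n := n.cast_nonneg
  refine ⟨n, fun y => abs_le.2 ⟨?_, ?_⟩⟩
  · have := S_le (L := n + 1) (by linarith) hf y 1
    simp only [inv_one, one_mul, dist_self, mul_zero, add_zero] at this
    linarith
  · rw [sub_le_comm]
    refine le_ciInf fun g => ?_
    have g0 : 0 ≤ dist g 1 := dist_nonneg
    rcases lt_or_ge (dist g 1) τ with hg | hg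
    · have := abs_le.1 (h g y hg)
      nlinarith
    · have := low hC g y
      have := abs_le.1 (hC y)
      nlinarith

variable (u : ℕ → H)

noncomputable def pt : List (ℕ × ℕ) → H → ℝ
  | [] => fun y => dist 1 y
  | a :: w => S (a.2 + 1) fun y => pt w ((u a.1)⁻¹ * y)

theorem one_le (n : ℕ) : (1 : ℝ) ≤ n + 1 := by simp

theorem pt_bd : ∀ w, Bd (pt u w)
  | [] => ⟨0, fun y => by simp [pt]⟩
  | _ :: w => S_bd (one_le _) (tr_bd (pt_bd w) _)

theorem pt_lip : ∀ w, ∃ L, 0 ≤ L ∧ ∀ h y, |pt u w (h⁻¹ * y) - pt u w y| ≤ L * dist h 1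
  | [] => ⟨1, zero_le_one, fun h y => by
      simp only [pt, d1, one_mul]
      exact abs_dist_sub_le h 1 y⟩
  | a :: w => ⟨a.2 + 1, by positivity, S_lip (one_le _) (tr_bd (pt_bd u w) _)⟩

abbrev J := List (ℕ × ℕ) × ℚ

noncomputable def lev (j : J) : ℝ := j.2 + (Encodable.encode j.1 : ℕ) * √2

theorem lev_inj : Function.Injective lev := by
  rintro ⟨w, q⟩ ⟨w', q'⟩ h
  simp only [lev] at h
  by_cases e : Encodable.encode w = Encodable.encode w'
  · rw [e, add_left_inj] at h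
    exact Prod.ext (Encodable.encode_injective e) (by exact_mod_cast h)
  · have h0 : ((Encodable.encode w : ℕ) : ℝ) - (Encodable.encode w' : ℕ) ≠ 0 :=
      sub_ne_zero.2 (by exact_mod_cast e)
    refine absurd ⟨(q' - q) / ((Encodable.encode w : ℕ) - (Encodable.encode w' : ℕ)), ?_⟩
      irrational_sqrt_two
    push_cast
    rw [div_eq_iff h0]
    linarith

def Z (_u : ℕ → H) : Type := H × J

def mk (h : H) (j : J) : Z u := (h, j)

noncomputable def fz (z : Z u) (y : H) : ℝ := pt u z.2.1 (z.1⁻¹ * y)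
noncomputable def D0 (a b : Z u) : ℝ := ⨆ y, |fz u a y - fz u b y|

theorem le_D0 (a b : Z u) (y : H) : |fz u a y - fz u b y| ≤ D0 u a b := by
  obtain ⟨C, hC⟩ := tr_bd (pt_bd u a.2.1) a.1
  obtain ⟨C', hC'⟩ := tr_bd (pt_bd u b.2.1) b.1
  refine le_ciSup (f := fun y => |fz u a y - fz u b y|) ⟨C + C', ?_⟩ y
  rintro _ ⟨y, rfl⟩
  have h1 := abs_le.1 (hC y)
  have h2 := abs_le.1 (hC' y)
  exact abs_le.2 ⟨by simp only [fz]; linarith, by simp only [fz]; linarith⟩

theorem D0_tri (a b c : Z u) : D0 u a c ≤ D0 u a b + D0 u b c :=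
  ciSup_le fun y => (abs_sub_le _ (fz u b y) _).trans (add_le_add (le_D0 u a b y) (le_D0 u b c y))

theorem sq_tri (x y z : ℝ) : √|x - z| ≤ √|x - y| + √|y - z| := by
  rw [Real.sqrt_le_iff]
  refine ⟨by positivity, (abs_sub_le x y z).trans ?_⟩
  have := Real.sq_sqrt (abs_nonneg (x - y))
  have := Real.sq_sqrt (abs_nonneg (y - z))
  have : 0 ≤ √|x - y| * √|y - z| := by positivity
  nlinarith

theorem sq_lt {x y z : ℝ} (h1 : x ≠ y) (h2 : y ≠ z) : √|x - z| < √|x - y| + √|y - z| := by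
  have p1 := Real.sqrt_pos.2 (abs_pos.2 (sub_ne_zero.2 h1))
  have p2 := Real.sqrt_pos.2 (abs_pos.2 (sub_ne_zero.2 h2))
  rw [Real.sqrt_lt' (by positivity)]
  refine (abs_sub_le x y z).trans_lt ?_
  have := Real.sq_sqrt (abs_nonneg (x - y))
  have := Real.sq_sqrt (abs_nonneg (y - z))
  have := mul_pos p1 p2
  nlinarith

noncomputable instance : PseudoMetricSpace (Z u) where
  dist a b := D0 u a b + √|lev a.2 - lev b.2|
  dist_self a := by simp [D0]
  dist_comm a b := by simp only [D0, abs_sub_comm]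
  dist_triangle a b c := by
    have := D0_tri u a b c
    have := sq_tri (lev a.2) (lev b.2) (lev c.2)
    linarith

theorem dist_def (a b : Z u) : dist a b = D0 u a b + √|lev a.2 - lev b.2| := rfl

instance : MulAction H (Z u) where
  smul h a := (h * a.1, a.2)
  one_smul a := Prod.ext (one_mul a.1) rfl
  mul_smul g h a := Prod.ext (mul_assoc g h a.1) rfl

theorem fz_smul (h : H) (a : Z u) (y : H) : fz u (h • a) y = fz u a (h⁻¹ * y) := by
  show pt u a.2.1 ((h * a.1)⁻¹ * y) = pt u a.2.1 _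
  rw [mul_inv_rev, mul_assoc]

instance : IsIsometricSMul H (Z u) := ⟨fun h => Isometry.of_dist_eq fun a b => by
  rw [dist_def, dist_def]
  congr 1
  simp only [D0, fz_smul]
  exact (Equiv.mulLeft h⁻¹).iSup_comp (g := fun y => |fz u a y - fz u b y|)⟩

theorem emb [IsTopologicalGroup H] (hu : DenseRange u) : ∃ φ : H →* G, Isometry φ := by
  let e : ℕ ≃ J := (Denumerable.eqv J).symm
  refine cube (Z := Z u) (p := fun n => mk u 1 (e n)) ?_ ?_ (fun n => ?_) (mk u 1 ([], 0))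
    fun h => ?_
  · intro n i hi j hj
    rw [dist_comm (mk u 1 (e j)), dist_def, dist_def, dist_def]
    have h1 := D0_tri u (mk u 1 (e i)) (mk u 1 (e (n + 1))) (mk u 1 (e j))
    simp only [mk] at h1 ⊢
    have h2 := sq_lt (x := lev (e i)) (y := lev (e (n + 1))) (z := lev (e j))
      (fun h => by have := e.injective (lev_inj h); omega)
      (fun h => by have := e.injective (lev_inj h); omega)
    linarith
  · refine Metric.denseRange_iff.2 fun ⟨h, w, q⟩ ε hε => ?_
    obtain ⟨L, L0, hL⟩ := pt_lip u w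
    have hη : 0 < ε / 3 / (L + 1) := by positivity
    have hb : ∀ t, t < ε / 3 / (L + 1) → L * t ≤ ε / 3 := fun t ht => by
      rw [lt_div_iff₀ (by positivity)] at ht
      by_cases h0 : 0 ≤ t <;> nlinarith
    obtain ⟨m, hm⟩ := Metric.denseRange_iff.1 hu h _ hη
    have hc : Continuous fun g : H => (u m)⁻¹ * g * u m := by fun_prop
    obtain ⟨τ, hτ, h1⟩ := Metric.continuous_iff.1 hc 1 _ hη
    obtain ⟨n, hn⟩ := S_approx (tr_bd (pt_bd u w) (u m)) (ε := ε / 3) (by positivity) hτ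
      fun g y hg => by
        have h2 := h1 g hg
        rw [mul_one, inv_mul_cancel] at h2
        have := (hL ((u m)⁻¹ * g * u m) ((u m)⁻¹ * y)).trans (hb _ h2)
        simpa [mul_assoc] using this
    obtain ⟨q', q1, q2⟩ := exists_rat_btwn (show lev (w, q) -
      (Encodable.encode ((m, n) :: w) : ℕ) * √2 < lev (w, q) -
        (Encodable.encode ((m, n) :: w) : ℕ) * √2 + (ε / 3) ^ 2 by
      have : 0 < (ε / 3) ^ 2 := by positivity
      linarith)
    refine ⟨e.symm ((m, n) :: w, q'), ?_⟩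
    simp only [e.apply_symm_apply]
    rw [dist_def]
    simp only [mk]
    have k1 : D0 u (h, w, q) (1, (m, n) :: w, q') ≤ ε / 3 + ε / 3 := ciSup_le fun y => by
      have a1 := hL ((u m)⁻¹ * h) ((u m)⁻¹ * y)
      rw [dist_comm, d1, dist_comm] at a1
      have a2 := a1.trans (hb _ hm)
      refine (abs_sub_le _ (pt u w ((u m)⁻¹ * y)) _).trans (add_le_add ?_ ?_)
      · simpa [fz, mul_assoc] using a2
      · simpa [fz, pt] using hn y
    have k2 : √|lev (w, q) - lev ((m, n) :: w, q')| < ε / 3 := by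
      rw [Real.sqrt_lt' (by positivity), abs_lt]
      simp only [lev] at *
      constructor <;> nlinarith
    linarith
  · obtain ⟨L, L0, hL⟩ := pt_lip u (e n).1
    refine ⟨L, L0, fun h => ?_⟩
    rw [dist_def]
    have : D0 u (h • mk u 1 (e n)) (mk u 1 (e n)) ≤ L * dist h 1 := ciSup_le fun y => by
      rw [fz_smul]
      simpa [fz, mk] using hL h y
    have e0 : (h • mk u 1 (e n)).2 = (mk u 1 (e n)).2 := rfl
    simpa [e0] using this
  · rw [dist_def]
    have e0 : (h • mk u 1 ([], 0)).2 = (mk u 1 ([], 0)).2 := rfl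
    simp only [e0, sub_self, abs_zero, Real.sqrt_zero, add_zero]
    apply le_antisymm
    · refine ciSup_le fun y => ?_
      rw [fz_smul]
      simpa [fz, pt, d1, mk] using abs_dist_sub_le h 1 y
    · have := le_D0 u (h • mk u 1 ([], 0)) (mk u 1 ([], 0)) 1
      rw [fz_smul] at this
      refine le_trans (le_of_eq ?_) this
      simp only [fz, pt, mk, inv_one, one_mul, d1, dist_self, sub_zero, abs_dist]

end

theorem result : ∃ (G : Type) (_ : Group G) (_ : MetricSpace G), IsSepLeft G ∧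
    ∀ (H : Type) [Group H] [MetricSpace H], IsSepLeft H →
      ∃ φ : H →* G, Function.Injective φ ∧ ∀ x y, dist (φ x) (φ y) = dist x y := by
  refine ⟨G, inferInstance, inferInstance, ⟨left, inferInstance, inferInstance⟩, ?_⟩
  rintro H _ _ ⟨h1, h2, h3⟩
  have : IsIsometricSMul H H := ⟨fun g => Isometry.of_dist_eq (h1 g)⟩
  obtain ⟨φ, hφ⟩ := emb _ (TopologicalSpace.denseRange_denseSeq H)
  exact ⟨φ, hφ.injective, hφ.dist_eq⟩

end Pool.Agent.Results.MP_501377_al.Yes
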